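import Pool.Agent.Helper80_PND.Stmts

/-!
# Squad PND, module XFR: graphs glued from copies of `B - xy` are `B`-free (helper87)
-/

set_option autoImplicit false

open SimpleGraph

namespace Pool.Agent.PND80.H87

open Pool.Agent.RS80 Pool.Agent.RS81 Pool.Agent.SEP60 Pool.Agent.TWC80

/-- `g 0, ..., g n` is a path. -/
def IsP {V : Type} (B : SimpleGraph V) (n : ℕ) (g : ℕ → V) : Prop :=
  (∀ i, i < n → B.Adj (g i) (g (i + 1))) ∧ (∀ i j, i ≤ n → j ≤ n → g i = g j → i = j)

/-- The extension of a function on `Fin (n + 1)`. -/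
def ext {V : Type} {n : ℕ} (G : Fin (n + 1) → V) (i : ℕ) : V :=
  G ⟨min i n, Nat.lt_succ_of_le (min_le_right _ _)⟩

theorem ext_comp {V : Type} {n : ℕ} (h : V → V) (G : Fin (n + 1) → V) (i : ℕ) :
    ext (h ∘ G) i = h (ext G i) := rfl

theorem ext_ext {V : Type} {n : ℕ} {G G' : Fin (n + 1) → V}
    (h : ∀ i, i ≤ n → ext G i = ext G' i) : G = G' := by
  funext i
  have h1 := h i (Nat.le_of_lt_succ i.2)
  have h2 : (⟨min (i : ℕ) n, Nat.lt_succ_of_le (min_le_right _ _)⟩ : Fin (n + 1)) = i := by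
    apply Fin.ext
    exact min_eq_left (Nat.le_of_lt_succ i.2)
  unfold ext at h1
  rw [h2] at h1
  exact h1

theorem ext_of {V : Type} {n : ℕ} (g : ℕ → V) {i : ℕ} (hi : i ≤ n) :
    ext (fun j : Fin (n + 1) => g j) i = g i := by
  unfold ext
  simp only
  rw [min_eq_left hi]

theorem walk_fun {V : Type} {B : SimpleGraph V} {x y s t : V} (p : B.Walk t s) (hp : p.IsPath)
    (he : s(x, y) ∈ p.edges) : ∃ (n : ℕ) (g : ℕ → V), IsP B n g ∧ g 0 = t ∧ g n = s ∧
      ∃ i, i < n ∧ s(g i, g (i + 1)) = s(x, y) := by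
  refine ⟨p.length, p.getVert, ⟨fun i hi => p.adj_getVert_succ hi, fun i j hi hj h => ?_⟩,
    p.getVert_zero, p.getVert_length, ?_⟩
  · exact hp.getVert_injOn (by simpa using hi) (by simpa using hj) h
  · clear hp
    induction p with
    | nil => simp at he
    | @cons u v w hadj q ih =>
      rw [Walk.edges_cons, List.mem_cons] at he
      rcases he with he | he
      · refine ⟨0, by simp, ?_⟩
        simp [he]
      · obtain ⟨i, hi, h⟩ := ih he
        refine ⟨i + 1, by simpa using hi, ?_⟩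
        simpa using h

theorem xfr (cyc : CycStmt) : XfrStmt := by
  classical
  intro V U T _ B hB x y hxy X φ ρ hρ hX hov
  rintro ⟨f⟩
  have finj : Function.Injective f := f.injective
  let h : V → V := fun v => ρ (f v)
  -- the copies
  have key : ∀ s t, B.Adj s t → ∃ τ, B.Adj (h s) (h t) ∧ s(h s, h t) ≠ s(x, y) ∧
      f s = φ τ (h s) ∧ f t = φ τ (h t) := by
    intro s t hst
    obtain ⟨τ, w, w', h1, h2, h3, h4⟩ := hX _ _ (f.toHom.map_adj hst)
    have h3' : f s = φ τ w := h3
    have h4' : f t = φ τ w' := h4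
    have e1 : h s = w := by
      change ρ (f s) = w
      rw [h3', hρ]
    have e2 : h t = w' := by
      change ρ (f t) = w'
      rw [h4', hρ]
    exact ⟨τ, by rw [e1, e2]; exact h1, by rw [e1, e2]; exact h2, by rw [e1]; exact h3',
      by rw [e2]; exact h4'⟩
  -- the darts
  let η : V × V → V × V := fun d => (h d.1, h d.2)
  have ηit : ∀ k d, B.Adj (Prod.fst d) (Prod.snd d) → B.Adj (η^[k] d).1 (η^[k] d).2 := by
    intro k
    induction k with
    | zero => intro d hd; exact hd
    | succ k ih =>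
      intro d hd
      rw [Function.iterate_succ_apply]
      apply ih
      obtain ⟨τ, h1, -⟩ := key _ _ hd
      exact h1
  let Per : Set (V × V) := {d | B.Adj d.1 d.2 ∧ d ∈ Function.periodicPts η}
  have per_ne : ∀ d ∈ Per, s(d.1, d.2) ≠ s(x, y) := by
    rintro d ⟨hd, hp⟩
    obtain ⟨k, hk, hkp⟩ := hp
    obtain ⟨k, rfl⟩ : ∃ k', k = k' + 1 := ⟨k - 1, by omega⟩
    have h1 : η (η^[k] d) = d := by
      rw [← Function.iterate_succ_apply' η k d]
      exact hkp
    obtain ⟨τ, -, h2, -⟩ := key _ _ (ηit k d hd)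
    have h3 : (h (η^[k] d).1, h (η^[k] d).2) = d := h1
    rw [← h3]
    exact h2
  have per_map : ∀ d ∈ Per, η d ∈ Per := by
    rintro d ⟨hd, hp⟩
    refine ⟨?_, (Function.bijOn_periodicPts η).mapsTo hp⟩
    obtain ⟨τ, h1, -⟩ := key _ _ hd
    exact h1
  have per_inj : ∀ d ∈ Per, ∀ d' ∈ Per, η d = η d' → d = d' := by
    rintro d ⟨hd, hp⟩ d' ⟨hd', hp'⟩ he
    exact (Function.bijOn_periodicPts η).injOn hp hp' he
  obtain ⟨d0, hd0⟩ : ∃ d, d ∈ Per := by
    obtain ⟨i, j, hij, he⟩ : ∃ i j : ℕ, i < j ∧ η^[i] (x, y) = η^[j] (x, y) := by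
      obtain ⟨i, j, hne, he⟩ := Finite.exists_ne_map_eq_of_infinite (fun k : ℕ => η^[k] (x, y))
      rcases lt_or_gt_of_ne hne with h1 | h1
      · exact ⟨i, j, h1, he⟩
      · exact ⟨j, i, h1, he.symm⟩
    refine ⟨η^[i] (x, y), ηit i _ hxy, ?_⟩
    refine Function.mk_mem_periodicPts (n := j - i) (by omega) ?_
    change η^[j - i] (η^[i] (x, y)) = η^[i] (x, y)
    rw [← Function.iterate_add_apply, Nat.sub_add_cancel hij.le, he]
  -- the minimal length
  let Q : ℕ → Prop := fun n => ∃ g : ℕ → V, IsP B n g ∧ (g n, g 0) ∈ Per ∧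
    ∃ i, i < n ∧ s(g i, g (i + 1)) = s(x, y)
  have hQ : ∃ n, Q n := by
    obtain ⟨p, hp, he⟩ := cyc V B hB x y d0.1 d0.2 hxy hd0.1 (per_ne d0 hd0)
    obtain ⟨n, g, h1, h2, h3, h4⟩ := walk_fun p hp he
    exact ⟨n, g, h1, by rw [h2, h3]; exact hd0, h4⟩
  set n := Nat.find hQ with hn
  obtain ⟨g0, hg0, hg0p, i0, hi0, hi0e⟩ : Q n := Nat.find_spec hQ
  have hmin : ∀ m, m < n → ¬ Q m := fun m hm => Nat.find_min hQ hm
  -- all in one copy
  have main : ∀ g : ℕ → V, IsP B n g → (g n, g 0) ∈ Per → ∀ τ, f (g n) = φ τ (h (g n)) →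
      f (g 0) = φ τ (h (g 0)) → ∀ i, i ≤ n → f (g i) = φ τ (h (g i)) := by
    intro g hg hper τ hτn hτ0
    by_contra hcon
    push Not at hcon
    obtain ⟨c, hcn, hc⟩ := hcon
    -- the first exit
    have hex : ∃ i, f (g i) ≠ φ τ (h (g i)) := ⟨c, hc⟩
    have ha := Nat.find_spec hex
    have hamin : ∀ j, j < Nat.find hex → f (g j) = φ τ (h (g j)) := by
      intro j hj
      by_contra hcon
      exact Nat.find_min hex hj hcon
    set a' := Nat.find hex with ha'
    have hac : a' ≤ c := Nat.find_min' hex hc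
    have ha0 : a' ≠ 0 := by
      intro h0
      rw [h0] at ha
      exact ha hτ0
    obtain ⟨a, haa⟩ : ∃ a, a' = a + 1 := ⟨a' - 1, by omega⟩
    rw [haa] at ha hamin hac
    -- the last entrance
    have hex2 : ∃ k, k ≤ n ∧ f (g (n - k)) ≠ φ τ (h (g (n - k))) := by
      refine ⟨n - c, by omega, ?_⟩
      rw [Nat.sub_sub_self hcn]
      exact hc
    obtain ⟨hbn, hb⟩ := Nat.find_spec hex2
    have hbmin : ∀ j, j < Nat.find hex2 → f (g (n - j)) = φ τ (h (g (n - j))) := by
      intro j hj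
      by_contra hcon
      exact Nat.find_min hex2 hj ⟨by omega, hcon⟩
    set b' := Nat.find hex2 with hb'
    have hbc : b' ≤ n - c := Nat.find_min' hex2 ⟨by omega, by
      rw [Nat.sub_sub_self hcn]; exact hc⟩
    have hb0 : b' ≠ 0 := by
      intro h0
      rw [h0] at hb
      exact hb hτn
    -- `b = n - b' + 1`
    obtain ⟨b, hbb⟩ : ∃ b, b = n - b' + 1 := ⟨_, rfl⟩
    have hbn' : b ≤ n := by omega
    have hab : a + 2 ≤ b := by omega
    have hb1 : f (g (b - 1)) ≠ φ τ (h (g (b - 1))) := by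
      have : b - 1 = n - b' := by omega
      rw [this]; exact hb
    have hlow : ∀ j, j ≤ a → f (g j) = φ τ (h (g j)) := fun j hj => hamin j (by omega)
    have hhigh : ∀ j, b ≤ j → j ≤ n → f (g j) = φ τ (h (g j)) := by
      intro j hj hj'
      have h1 := hbmin (n - j) (by omega)
      rwa [Nat.sub_sub_self hj'] at h1
    -- the ends are `x`, `y`
    have hva : h (g a) = x ∨ h (g a) = y := by
      obtain ⟨τ', -, -, h1, h2⟩ := key _ _ (hg.1 a (by omega))
      have hne : τ ≠ τ' := by
        intro he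
        rw [← he] at h2
        exact ha h2
      exact hov τ τ' _ ((hlow a le_rfl).symm.trans h1) hne
    have hvb : h (g b) = x ∨ h (g b) = y := by
      have h0 := hg.1 (b - 1) (by omega)
      rw [Nat.sub_add_cancel (by omega : 1 ≤ b)] at h0
      obtain ⟨τ', -, -, h1, h2⟩ := key _ _ h0
      have hne : τ ≠ τ' := by
        intro he
        rw [← he] at h1
        exact hb1 h1
      exact hov τ τ' _ ((hhigh b le_rfl hbn').symm.trans h2) hne
    have hinj : ∀ j j', j ≤ n → j' ≤ n → f (g j) = φ τ (h (g j)) →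
        f (g j') = φ τ (h (g j')) → h (g j) = h (g j') → j = j' := by
      intro j j' hj hj' h1 h2 h3
      apply hg.2 j j' hj hj'
      apply finj
      rw [h1, h2, h3]
    have hneab : h (g a) ≠ h (g b) := by
      intro h3
      have := hinj a b (by omega) hbn' (hlow a le_rfl) (hhigh b le_rfl hbn') h3
      omega
    have hsym : s(h (g a), h (g b)) = s(x, y) := by
      rcases hva with h1 | h1 <;> rcases hvb with h2 | h2
      · exact absurd (h1.trans h2.symm) hneab
      · rw [h1, h2]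
      · rw [h1, h2, Sym2.eq_swap]
      · exact absurd (h1.trans h2.symm) hneab
    have hadj : B.Adj (h (g a)) (h (g b)) := by
      rw [← SimpleGraph.mem_edgeSet, hsym]
      exact hxy
    -- the shorter path
    let g' : ℕ → V := fun i => if i ≤ a then h (g i) else h (g (i + b - a - 1))
    have hg'1 : ∀ i, i ≤ a → g' i = h (g i) := fun i hi => if_pos hi
    have hg'2 : ∀ i, a < i → g' i = h (g (i + b - a - 1)) := fun i hi => if_neg (by omega)
    refine hmin (a + 1 + (n - b)) (by omega) ⟨g', ⟨?_, ?_⟩, ?_, a, by omega, ?_⟩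
    · intro i hi
      rcases lt_trichotomy i a with h1 | h1 | h1
      · rw [hg'1 i h1.le, hg'1 (i + 1) (by omega)]
        obtain ⟨τ', h2, -⟩ := key _ _ (hg.1 i (by omega))
        exact h2
      · subst h1
        rw [hg'1 i le_rfl, hg'2 (i + 1) (by omega)]
        have : i + 1 + b - i - 1 = b := by omega
        rw [this]
        exact hadj
      · rw [hg'2 i h1, hg'2 (i + 1) (by omega)]
        have : i + 1 + b - a - 1 = (i + b - a - 1) + 1 := by omega
        rw [this]
        obtain ⟨τ', h2, -⟩ := key _ _ (hg.1 (i + b - a - 1) (by omega))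
        exact h2
    · intro i j hi hj hij
      rcases le_or_gt i a with h1 | h1 <;> rcases le_or_gt j a with h2 | h2
      · rw [hg'1 i h1, hg'1 j h2] at hij
        exact hinj i j (by omega) (by omega) (hlow i h1) (hlow j h2) hij
      · rw [hg'1 i h1, hg'2 j h2] at hij
        have := hinj i (j + b - a - 1) (by omega) (by omega) (hlow i h1)
          (hhigh _ (by omega) (by omega)) hij
        omega
      · rw [hg'2 i h1, hg'1 j h2] at hij
        have := hinj (i + b - a - 1) j (by omega) (by omega)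
          (hhigh _ (by omega) (by omega)) (hlow j h2) hij
        omega
      · rw [hg'2 i h1, hg'2 j h2] at hij
        have := hinj (i + b - a - 1) (j + b - a - 1) (by omega) (by omega)
          (hhigh _ (by omega) (by omega)) (hhigh _ (by omega) (by omega)) hij
        omega
    · have e1 : g' (a + 1 + (n - b)) = h (g n) := by
        rw [hg'2 _ (by omega)]
        have : a + 1 + (n - b) + b - a - 1 = n := by omega
        rw [this]
      have e2 : g' 0 = h (g 0) := hg'1 0 (Nat.zero_le _)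
      rw [e1, e2]
      exact per_map _ hper
    · rw [hg'1 a le_rfl, hg'2 (a + 1) (by omega)]
      have : a + 1 + b - a - 1 = b := by omega
      rw [this]
      exact hsym
  -- the finite set of paths
  let Ω : Set (Fin (n + 1) → V) := {G | IsP B n (ext G) ∧ (ext G n, ext G 0) ∈ Per}
  have hcopy : ∀ G ∈ Ω, ∃ τ, (∀ i, i ≤ n → f (ext G i) = φ τ (h (ext G i))) := by
    intro G hG
    obtain ⟨τ, -, -, h1, h2⟩ := key _ _ hG.2.1
    exact ⟨τ, main (ext G) hG.1 hG.2 τ h1 h2⟩
  -- the copy depends on the dart only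
  choose cpy hcpy using fun (d : {d : V × V // B.Adj d.1 d.2}) => key d.1.1 d.1.2 d.2
  have hcopy' : ∀ G (hG : G ∈ Ω), ∀ i, i ≤ n →
      f (ext G i) = φ (cpy ⟨(ext G n, ext G 0), hG.2.1⟩) (h (ext G i)) := by
    intro G hG
    obtain ⟨-, -, h1, h2⟩ := hcpy ⟨(ext G n, ext G 0), hG.2.1⟩
    exact main (ext G) hG.1 hG.2 _ h1 h2
  have hmaps : Set.MapsTo (fun G => h ∘ G) Ω Ω := by
    intro G hG
    refine ⟨⟨fun i hi => ?_, fun i j hi hj hij => ?_⟩, ?_⟩
    · rw [ext_comp, ext_comp]
      obtain ⟨τ', h2, -⟩ := key _ _ (hG.1.1 i hi)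
      exact h2
    · rw [ext_comp, ext_comp] at hij
      apply hG.1.2 i j hi hj
      apply finj
      rw [hcopy' G hG i hi, hcopy' G hG j hj, hij]
    · rw [ext_comp, ext_comp]
      exact per_map _ hG.2
  have hinjOn : Set.InjOn (fun G => h ∘ G) Ω := by
    intro G hG G' hG' he
    have he' : ∀ i, h (ext G i) = h (ext G' i) := by
      intro i
      have := congrArg (fun F => ext F i) he
      simpa only [ext_comp] using this
    have hd : (ext G n, ext G 0) = (ext G' n, ext G' 0) := by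
      apply per_inj _ hG.2 _ hG'.2
      change (h (ext G n), h (ext G 0)) = (h (ext G' n), h (ext G' 0))
      rw [he' n, he' 0]
    apply ext_ext
    intro i hi
    apply finj
    rw [hcopy' G hG i hi, hcopy' G' hG' i hi, he' i]
    have : (⟨(ext G n, ext G 0), hG.2.1⟩ : {d : V × V // B.Adj d.1 d.2}) =
        ⟨(ext G' n, ext G' 0), hG'.2.1⟩ := Subtype.ext hd
    rw [this]
  have hsurj : Set.SurjOn (fun G => h ∘ G) Ω Ω := by
    have hfin : Ω.Finite := Set.toFinite _
    exact ((hfin.injOn_iff_bijOn_of_mapsTo hmaps).1 hinjOn).surjOn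
  -- the path through `xy`
  have hG0 : (fun j : Fin (n + 1) => g0 j) ∈ Ω := by
    refine ⟨⟨fun i hi => ?_, fun i j hi hj hij => ?_⟩, ?_⟩
    · rw [ext_of g0 hi.le, ext_of g0 hi]
      exact hg0.1 i hi
    · rw [ext_of g0 hi, ext_of g0 hj] at hij
      exact hg0.2 i j hi hj hij
    · rw [ext_of g0 le_rfl, ext_of g0 (Nat.zero_le _)]
      exact hg0p
  obtain ⟨G1, hG1, hG1e⟩ := hsurj hG0
  obtain ⟨τ', -, h2, -⟩ := key _ _ (hG1.1.1 i0 hi0)
  apply h2
  have e1 : h (ext G1 i0) = g0 i0 := by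
    have := congrArg (fun F => ext F i0) hG1e
    simp only [ext_comp] at this
    rw [this, ext_of g0 hi0.le]
  have e2 : h (ext G1 (i0 + 1)) = g0 (i0 + 1) := by
    have := congrArg (fun F => ext F (i0 + 1)) hG1e
    simp only [ext_comp] at this
    rw [this, ext_of g0 hi0]
  rw [e1, e2]
  exact hi0e

end Pool.Agent.PND80.H87
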